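import Pool.Agent.H49R2.PC.Main

/-!
# MP_20b771_lc: no FPRAS for the number of 4-colourings of planar graphs, unless `RP = NP`

All definitions are in `Pool/Agent/H49R2/PC/Defs.lean` (`Gr`, `IsPlanar`, `numCol`, `HasFPRASOn`),
`Pool/Agent/H579R2/Spt/Defs.lean` (`InRP`) and `Pool/Agent/NPC/Defs.lean` (`PolyTime`, `InNP`,
`bits`).

## Idea of the proof

A bundle of `m` parallel paths of length 2 between two vertices has `3 ^ m` colourings if the ends
have the same colour and `2 ^ m` otherwise.  So in planar graphs one can use soft edges which prefer
equal colours.  Take a wheel whose rim is a cycle of length 18, with alternating vertices `a_k` and
`p_k`, and whose spokes are soft, of strength 10 at the vertices `a_k` and 9 at the vertices `p_k`.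
In the best colourings all `a_k` have the colour of the centre (value 90, active state); in all other
colourings the value is at most 81, and 81 is reached with all `p_k` in the colour of the centre.
Wheels are placed at some sites of the triangular lattice; the wheels at adjacent sites share one
vertex `a_k`, and a hard edge joins two other vertices `a_k`, `a_l` of them, so adjacent wheels are
not both active, and every independent set of active wheels extends to a colouring.  The partition
function thus detects the maximal weight of an independent set of sites of the triangular lattice.
The weights are the numbers of blocks (cliques with at most three sites) containing a site; a set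
with exactly one site in each block exists if and only if a given CNF formula is satisfiable, by a
layout of the formula with a crossing gadget made of three parity gadgets.  The gap between the two
cases is exponential, so an FPRAS gives a randomised test for satisfiability; amplification and the
search for a satisfying assignment give `NP ⊆ RP`.  The four colour theorem is not used.
-/

namespace Pool.Agent.Results.MP_20b771_lc.NoFPRAS

open Pool.Agent.NPC Pool.Agent.H49R2.PC Pool.Agent.H579R2.Spt

/-- **Main theorem.** If the number of 4-colourings has an FPRAS on planar graphs, then
`RP = NP`. -/
theorem result : HasFPRASOn IsPlanar (numCol 4) → ∀ L : Set (List Bool), InRP L ↔ InNP L :=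
  fun h L => ⟨fun hL => hL.inNP, fun hL => main h L hL⟩

end Pool.Agent.Results.MP_20b771_lc.NoFPRAS
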